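import Pool.Agent.W345.GK.Cl2

/-!
# Lattice lemma
-/

set_option autoImplicit false

open scoped TensorProduct

namespace Pool.Agent.W692.GK

open Pool.Agent.W345.GK

/-- elements of `W ⊗ U` killed by all functionals are killed by `n` -/
lemma kill {W : Type} [CommRing W] [IsDomain W] [CharZero W] {G : Type} [Finite G] {U : Type}
    [AddCommGroup U] (f : G → (U →ₗ[ℤ] ℤ)) (n : ℕ) (h : ∀ u : U, (∀ g, f g u = 0) → n • u = 0)
    (m : W ⊗[ℤ] U)
    (hm : ∀ g, TensorProduct.AlgebraTensorModule.rid ℤ W W ((f g).baseChange W m) = 0) :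
    n • m = 0 := by
  classical
  have : Fintype G := Fintype.ofFinite G
  have : Module.IsTorsionFree ℤ W := inferInstance
  have : Module.Flat ℤ W := inferInstance
  set Φ : U →ₗ[ℤ] (G → ℤ) := LinearMap.pi f with hΦ
  have h1 : (LinearMap.lTensor W Φ) m = 0 := by
    apply (TensorProduct.piScalarRight ℤ W W G).injective
    rw [map_zero]
    funext g
    have h2 : ∀ m : W ⊗[ℤ] U, (TensorProduct.piScalarRight ℤ W W G) ((LinearMap.lTensor W Φ) m) g =
        TensorProduct.AlgebraTensorModule.rid ℤ W W ((f g).baseChange W m) := by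
      intro m
      induction m with
      | zero => simp
      | tmul w u => simp [hΦ]
      | add x y hx hy => rw [map_add, map_add, map_add, map_add, Pi.add_apply, hx, hy]
    rw [h2, hm]
    rfl
  -- factor through the quotient
  set K0 : Submodule ℤ U := LinearMap.ker Φ with hK0
  set ι : (U ⧸ K0) →ₗ[ℤ] (G → ℤ) := K0.liftQ Φ le_rfl with hι
  have hιinj : Function.Injective ι := by
    rw [← LinearMap.ker_eq_bot, hι, Submodule.ker_liftQ_eq_bot _ _ _ le_rfl]
  have h3 : Φ = ι ∘ₗ K0.mkQ := (Submodule.liftQ_mkQ _ _ _).symm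
  have h4 : (LinearMap.lTensor W K0.mkQ) m = 0 := by
    have h5 : (LinearMap.lTensor W ι) ((LinearMap.lTensor W K0.mkQ) m) = 0 := by
      rw [← LinearMap.comp_apply, ← LinearMap.lTensor_comp, ← h3]
      exact h1
    have h6 := Module.Flat.lTensor_preserves_injective_linearMap (M := W) ι hιinj
    exact h6 (by rw [h5, map_zero])
  have h7 := (lTensor_exact W (LinearMap.exact_subtype_mkQ K0) (Submodule.mkQ_surjective K0) m).1 h4
  have h8 : ∀ k : W ⊗[ℤ] K0, n • k = 0 := by
    intro k
    induction k with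
    | zero => rw [smul_zero]
    | tmul w u =>
      have h9 : n • u = 0 := by
        have := LinearMap.mem_ker.1 u.2
        apply Subtype.ext
        rw [Submodule.coe_smul_of_tower]
        exact h u fun g => congrFun this g
      rw [← TensorProduct.tmul_smul, h9, TensorProduct.tmul_zero]
    | add x y hx hy => rw [smul_add, hx, hy, add_zero]
  obtain ⟨k, rfl⟩ := h7
  rw [← map_nsmul, h8, map_zero]

/-- the lemma for a principal ideal domain with residue field `F` -/
theorem lat_aux {F : Type} [Field F] {W : Type} [CommRing W] [IsDomain W] [IsPrincipalIdealRing W]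
    [CharZero W] (c : W →+* F) (hc : Function.Surjective c) {G : Type} [CommGroup G] [Fintype G]
    (χ : G →* Wˣ) {U : Type} [AddCommGroup U] (act : G →* AddMonoid.End U) (v : U →+ ℤ) (n : ℕ)
    (hn : (n : F) ≠ 0) (h : ∀ u : U, (∀ g : G, v (act g u) = 0) → n • u = 0) :
    ∃ w : F ⊗[ℤ] U, ∀ z : F ⊗[ℤ] U, ∃ s : F,
    ∑ g : G, c ((χ g)⁻¹ : Wˣ) •
      (LinearMap.lTensor F (AddMonoidHom.toIntLinearMap (act g))) z = s • w := by
  set A : G → (U →ₗ[ℤ] U) := fun g => AddMonoidHom.toIntLinearMap (act g) with hA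
  have hAm : ∀ g h u, A g (A h u) = A (g * h) u := by
    intro g h u
    simp only [hA, map_mul]
    rfl
  set B : G → (W ⊗[ℤ] U →ₗ[W] W ⊗[ℤ] U) := fun g => (A g).baseChange W with hB
  have hBm : ∀ g h m, B g (B h m) = B (g * h) m := by
    intro g h m
    induction m with
    | zero => simp
    | tmul w u => simp only [hB, LinearMap.baseChange_tmul, hAm]
    | add x y hx hy => rw [map_add, map_add, map_add, hx, hy]
  set e : W ⊗[ℤ] U →ₗ[W] W ⊗[ℤ] U := ∑ g : G, ((((χ g)⁻¹ : Wˣ) : W)) • B g with he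
  have heB : ∀ h m, B h (e m) = ((χ h : Wˣ) : W) • e m := by
    intro h m
    simp only [he, LinearMap.sum_apply, LinearMap.smul_apply, map_sum, map_smul, hBm,
      Finset.smul_sum, smul_smul]
    refine Fintype.sum_bijective (fun g => h * g) (Group.mulLeft_bijective h) _ _ fun g => ?_
    congr 1
    rw [map_mul, mul_inv, ← Units.val_mul, mul_inv_cancel_left]
  set φ : W ⊗[ℤ] U →ₗ[W] W := (TensorProduct.AlgebraTensorModule.rid ℤ W W).toLinearMap ∘ₗ
    ((AddMonoidHom.toIntLinearMap v).baseChange W) with hφ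
  have hkill : ∀ m : W ⊗[ℤ] U, (∀ g, φ (B g m) = 0) → n • m = 0 := by
    intro m hm
    refine kill (fun g => (AddMonoidHom.toIntLinearMap v) ∘ₗ A g) n (fun u hu => h u fun g => hu g)
      m fun g => ?_
    rw [LinearMap.baseChange_comp]
    exact hm g
  obtain ⟨x0, hx0⟩ := (IsPrincipalIdealRing.principal (LinearMap.range (φ ∘ₗ e) : Ideal W)).principal
  have hx0m : x0 ∈ LinearMap.range (φ ∘ₗ e) := by
    rw [hx0]; exact Submodule.mem_span_singleton_self x0
  obtain ⟨z0, hz0⟩ := hx0m
  have hgen : ∀ m, ∃ s : W, n • (e m - s • e z0) = 0 := by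
    intro m
    have h1 : (φ ∘ₗ e) m ∈ LinearMap.range (φ ∘ₗ e) := LinearMap.mem_range_self _ m
    rw [hx0, Submodule.mem_span_singleton] at h1
    obtain ⟨s, hs⟩ := h1
    refine ⟨s, hkill _ fun g => ?_⟩
    rw [map_sub, map_smul, heB, heB, map_sub, map_smul, map_smul, map_smul]
    have h2 : φ (e m) = s * φ (e z0) := by
      have h3 : φ (e z0) = x0 := hz0
      rw [h3]
      exact hs.symm
    rw [h2]
    simp only [smul_eq_mul]
    ring
  -- reduction
  set r : W ⊗[ℤ] U →ₗ[ℤ] F ⊗[ℤ] U := LinearMap.rTensor U (c.toAddMonoidHom.toIntLinearMap) with hr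
  have hrsurj : Function.Surjective r := by
    rw [hr]
    exact LinearMap.rTensor_surjective U hc
  have hrt : ∀ (a : W) (u : U), r (a ⊗ₜ[ℤ] u) = c a ⊗ₜ[ℤ] u := fun a u => rfl
  have hrsmul : ∀ (w : W) m, r (w • m) = c w • r m := by
    intro w m
    induction m with
    | zero => simp
    | tmul a u =>
      rw [TensorProduct.smul_tmul', hrt, hrt, TensorProduct.smul_tmul', smul_eq_mul, smul_eq_mul,
        map_mul]
    | add x y hx hy => rw [smul_add, map_add, map_add, smul_add, hx, hy]
  have hrB : ∀ g m, r (B g m) = LinearMap.lTensor F (A g) (r m) := by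
    intro g m
    induction m with
    | zero => simp
    | tmul a u => simp only [hrt, hB, LinearMap.baseChange_tmul, LinearMap.lTensor_tmul]
    | add x y hx hy => rw [map_add, map_add, map_add, map_add, hx, hy]
  have hre : ∀ m, r (e m) = ∑ g : G, c ((χ g)⁻¹ : Wˣ) • (LinearMap.lTensor F (A g)) (r m) := by
    intro m
    simp only [he, LinearMap.sum_apply, LinearMap.smul_apply, map_sum, hrsmul, hrB]
  refine ⟨r (e z0), fun z => ?_⟩
  obtain ⟨m, rfl⟩ := hrsurj z
  obtain ⟨s, hs⟩ := hgen m
  refine ⟨c s, ?_⟩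
  have h1 : (n : F) • (r (e m) - c s • r (e z0)) = 0 := by
    rw [Nat.cast_smul_eq_nsmul, ← hrsmul, ← map_sub, ← map_nsmul, hs, map_zero]
  rcases smul_eq_zero.1 h1 with h2 | h2
  · exact absurd h2 hn
  · rw [← hre]
    exact sub_eq_zero.1 h2

lemma witt_charZero (p : ℕ) [hp : Fact p.Prime] (F : Type) [Field F] [CharP F p] :
    CharZero (WittVector p F) := by
  apply charZero_of_inj_zero
  intro m hm
  by_contra hm0
  obtain ⟨a, b, hb, rfl⟩ := Nat.exists_eq_pow_mul_and_not_dvd hm0 p hp.out.ne_one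
  rw [Nat.cast_mul, Nat.cast_pow] at hm
  rcases mul_eq_zero.1 hm with h1 | h1
  · exact pow_ne_zero a (WittVector.p_nonzero p F) h1
  · apply hb
    have h2 := congrArg (WittVector.constantCoeff : WittVector p F →+* F) h1
    rw [map_natCast, map_zero] at h2
    exact (CharP.cast_eq_zero_iff F p b).1 h2

theorem lat : S_LAT := by
  intro F _ _ p _ _ G _ _ χ hpG U _ act v n hn h
  have : CharZero (WittVector p F) := witt_charZero p F
  have hnF : (n : F) ≠ 0 := fun h0 => hn ((CharP.cast_eq_zero_iff F p n).1 h0)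
  obtain ⟨w, hw⟩ := lat_aux (WittVector.constantCoeff : WittVector p F →+* F)
    (WittVector.constantCoeff_surjective p)
    ((Units.map (WittVector.teichmuller p : F →* WittVector p F)).comp χ) act v n hnF h
  refine ⟨w, fun z => ?_⟩
  obtain ⟨s, hs⟩ := hw z
  refine ⟨s, ?_⟩
  rw [← hs]
  refine Finset.sum_congr rfl fun g _ => ?_
  congr 1

end Pool.Agent.W692.GK
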